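import Pool.Agent.helper14.Kus3.Defs
import Pool.Agent.helper91.Kus3.F1b
import Pool.Agent.helper28.Kus3.F2a

/-!
# [KF2b] the second derivative of the area of a deformed surface
-/

set_option autoImplicit false

open Set Metric MeasureTheory
open scoped ContDiff Topology

namespace Kusner.F2b

open Kusner

/-! ### independence and `jac` -/

section
variable {E : Type*} [NormedAddCommGroup E] [InnerProductSpace ℝ E]

theorem jac_pos {x y : E} (h : ∀ a b : ℝ, a • x + b • y = 0 → a = 0 ∧ b = 0) : 0 < jac x y := by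
  unfold jac
  apply Real.sqrt_pos.2
  have hy : y ≠ 0 := by
    rintro rfl
    have := (h 0 1 (by simp)).2
    norm_num at this
  have hy2 : 0 < ‖y‖ ^ 2 := by positivity
  have hz : ‖y‖ ^ 2 • x + (-(inner ℝ x y)) • y ≠ 0 := fun h0 => hy2.ne' (h _ _ h0).1
  have h1 : 0 < ‖‖y‖ ^ 2 • x + (-(inner ℝ x y)) • y‖ ^ 2 := by positivity
  have h2 : ‖‖y‖ ^ 2 • x + (-(inner ℝ x y)) • y‖ ^ 2 =
      ‖y‖ ^ 2 * (‖x‖ ^ 2 * ‖y‖ ^ 2 - inner ℝ x y ^ 2) := by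
    rw [norm_add_sq_real, norm_smul, norm_smul, real_inner_smul_left, real_inner_smul_right,
      mul_pow, mul_pow, Real.norm_eq_abs, Real.norm_eq_abs, sq_abs, sq_abs]
    ring
  rw [h2] at h1
  exact (pos_iff_pos_of_mul_pos h1).1 hy2

theorem indep_of_jac_pos {x y : E} (h : 0 < jac x y) (a b : ℝ) (hab : a • x + b • y = 0) :
    a = 0 ∧ b = 0 := by
  have key : ∀ (x y : E) (a b : ℝ), 0 < ‖x‖ ^ 2 * ‖y‖ ^ 2 - inner ℝ x y ^ 2 →
      a • x + b • y = 0 → a = 0 := by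
    intro x y a b h hab
    by_contra ha
    have hx : x = (-(b / a)) • y := by
      have h1 : a • x = -(b • y) := by rw [← add_eq_zero_iff_eq_neg]; exact hab
      have h2 : x = a⁻¹ • (a • x) := by rw [smul_smul, inv_mul_cancel₀ ha, one_smul]
      rw [h2, h1, smul_neg, smul_smul, neg_smul]
      congr 2
      field_simp
    rw [hx, norm_smul, real_inner_smul_left, real_inner_self_eq_norm_sq, mul_pow, Real.norm_eq_abs,
      sq_abs] at h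
    have : (-(b / a)) ^ 2 * ‖y‖ ^ 2 * ‖y‖ ^ 2 - (-(b / a) * ‖y‖ ^ 2) ^ 2 = 0 := by ring
    rw [this] at h
    exact lt_irrefl _ h
  have h' : 0 < ‖x‖ ^ 2 * ‖y‖ ^ 2 - inner ℝ x y ^ 2 := Real.sqrt_pos.1 h
  refine ⟨key x y a b h' hab, key y x b a ?_ (by rw [add_comm]; exact hab)⟩
  rw [real_inner_comm, mul_comm]
  exact h'

end

/-! ### the parametric derivative -/

theorem hasDerivAt_slice {Y : Type*} [NormedAddCommGroup Y] [NormedSpace ℝ Y] {O : Set (ℝ × Y)}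
    (hO : IsOpen O) {g : ℝ × Y → ℝ} (hg : ContDiffOn ℝ ∞ g O) {t : ℝ} {y : Y} (h : (t, y) ∈ O) :
    HasDerivAt (fun t => g (t, y)) (fderiv ℝ g (t, y) (1, 0)) t := by
  have h1 : HasFDerivAt g (fderiv ℝ g (t, y)) (t, y) :=
    ((hg.contDiffAt (hO.mem_nhds h)).differentiableAt (by simp)).hasFDerivAt
  have h2 : HasDerivAt (fun t : ℝ => (t, y)) ((1 : ℝ), (0 : Y)) t :=
    (hasDerivAt_id t).prodMk (hasDerivAt_const t y)
  exact h1.comp_hasDerivAt t h2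

theorem contDiffOn_slice {Y : Type*} [NormedAddCommGroup Y] [NormedSpace ℝ Y] {O : Set (ℝ × Y)}
    (hO : IsOpen O) {g : ℝ × Y → ℝ} (hg : ContDiffOn ℝ ∞ g O) :
    ContDiffOn ℝ ∞ (fun p => fderiv ℝ g p (1, 0)) O :=
  (hg.fderiv_of_isOpen hO (by simp)).clm_apply contDiffOn_const

theorem param_deriv {α : Type*} [MeasurableSpace α] {μ : Measure α} {Y : Type*}
    [NormedAddCommGroup Y] [NormedSpace ℝ Y] {O : Set (ℝ × Y)} (hO : IsOpen O) {g : ℝ × Y → ℝ}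
    (hg : ContDiffOn ℝ ∞ g O) {K : Set Y} (hK : IsCompact K) (hKO : ∀ t, ∀ y ∈ K, (t, y) ∈ O)
    {w : α → ℝ} (hw : Integrable w μ) {y : α → Y} (hy : ∀ᵐ u ∂μ, y u ∈ K)
    (hm : ∀ t, AEStronglyMeasurable (fun u => w u * g (t, y u)) μ) :
    (∀ t, AEStronglyMeasurable (fun u => w u * (fderiv ℝ g (t, y u) (1, 0))) μ) ∧
    ∀ t, HasDerivAt (fun t => ∫ u, w u * g (t, y u) ∂μ)
      (∫ u, w u * fderiv ℝ g (t, y u) (1, 0) ∂μ) t := by
  have hmeas : ∀ t, AEStronglyMeasurable (fun u => w u * (fderiv ℝ g (t, y u) (1, 0))) μ := by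
    intro t
    let d : ℕ → ℝ := fun k => 1 / ((k : ℝ) + 1)
    have hd : ∀ k, d k ≠ 0 := fun k => by positivity
    have hd0 : Filter.Tendsto d Filter.atTop (𝓝[≠] 0) :=
      tendsto_nhdsWithin_iff.2 ⟨tendsto_one_div_add_atTop_nhds_zero_nat,
        Filter.Eventually.of_forall hd⟩
    refine aestronglyMeasurable_of_tendsto_ae Filter.atTop
      (f := fun k u => (d k)⁻¹ * (w u * g (t + d k, y u) - w u * g (t, y u)))
      (fun k => ((hm _).sub (hm _)).const_mul _) ?_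
    filter_upwards [hy] with u hu
    have h1 := (hasDerivAt_slice hO hg (hKO t _ hu)).tendsto_slope_zero
    have h2 := (h1.comp hd0).const_mul (w u)
    refine h2.congr fun k => ?_
    simp only [Function.comp, smul_eq_mul]
    ring
  refine ⟨hmeas, fun t => ?_⟩
  have hcomp : IsCompact (Icc (t - 1) (t + 1) ×ˢ K) := isCompact_Icc.prod hK
  obtain ⟨C, hC⟩ := hcomp.exists_bound_of_continuousOn (f := fun p => fderiv ℝ g p (1, 0))
    ((contDiffOn_slice hO hg).continuousOn.mono fun p hp => hKO p.1 p.2 hp.2)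
  obtain ⟨C0, hC0⟩ := (hK.image (Continuous.prodMk_right t)).exists_bound_of_continuousOn
    (f := g) (hg.continuousOn.mono (by rintro _ ⟨y, hy, rfl⟩; exact hKO t y hy))
  refine (hasDerivAt_integral_of_dominated_loc_of_deriv_le (s := Ioo (t - 1) (t + 1))
    (F := fun t u => w u * g (t, y u)) (F' := fun t u => w u * fderiv ℝ g (t, y u) (1, 0))
    (bound := fun u => |w u| * C) (Ioo_mem_nhds (by linarith) (by linarith))
    (Filter.Eventually.of_forall hm) ?_ (hmeas t) ?_ (hw.abs.mul_const C) ?_).2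
  · refine Integrable.mono' (hw.abs.mul_const C0) (hm t) ?_
    filter_upwards [hy] with u hu
    rw [norm_mul, Real.norm_eq_abs]
    exact mul_le_mul_of_nonneg_left (hC0 _ ⟨y u, hu, rfl⟩) (abs_nonneg _)
  · filter_upwards [hy] with u hu t' ht'
    rw [norm_mul, Real.norm_eq_abs]
    exact mul_le_mul_of_nonneg_left (hC (t', y u) ⟨⟨ht'.1.le, ht'.2.le⟩, hu⟩) (abs_nonneg _)
  · filter_upwards [hy] with u hu t' ht'
    exact (hasDerivAt_slice hO hg (hKO t' _ hu)).const_mul (w u)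

/-! ### the integrand -/

section
variable {φ : ℝ → E3 → E3}

theorem contDiff_slice (hφ : ContDiff ℝ ∞ fun p : ℝ × E3 => φ p.1 p.2) (t : ℝ) :
    ContDiff ℝ ∞ (φ t) := hφ.comp (contDiff_const.prodMk contDiff_id)

theorem contDiff_T (hφ : ContDiff ℝ ∞ fun p : ℝ × E3 => φ p.1 p.2) :
    ContDiff ℝ ∞ fun p : ℝ × E3 => fderiv ℝ (φ p.1) p.2 := by
  refine ContDiff.fderiv (f := fun (p : ℝ × E3) x => φ p.1 x) (m := ∞) (n := ∞) ?_ contDiff_snd
    (by simp)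
  exact hφ.comp ((contDiff_fst.comp contDiff_fst).prodMk contDiff_snd)

theorem T_inj (hφ : IsDeformation φ) (t : ℝ) (x : E3) :
    Function.Injective (fderiv ℝ (φ t) x) := by
  obtain ⟨χ, hχ, hχφ, -⟩ := hφ.diffeo
  have h1 : HasFDerivAt (φ t) (fderiv ℝ (φ t) x) x :=
    ((contDiff_slice hφ.smooth t).differentiable (by simp) x).hasFDerivAt
  have h2 : HasFDerivAt (χ t) (fderiv ℝ (χ t) (φ t x)) (φ t x) :=
    ((contDiff_slice hχ t).differentiable (by simp) _).hasFDerivAt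
  have h3 := h2.comp x h1
  have h4 : χ t ∘ φ t = id := by funext y; exact hχφ t y
  rw [h4] at h3
  have h5 := h3.unique (hasFDerivAt_id x)
  intro u v huv
  have h6 : ((fderiv ℝ (χ t) (φ t x)).comp (fderiv ℝ (φ t) x)) u =
      ((fderiv ℝ (χ t) (φ t x)).comp (fderiv ℝ (φ t) x)) v := by
    simp only [ContinuousLinearMap.comp_apply, huv]
  rw [h5] at h6
  simpa using h6

theorem φ_inj (hφ : IsDeformation φ) (t : ℝ) : Function.Injective (φ t) := by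
  obtain ⟨χ, hχ, hχφ, -⟩ := hφ.diffeo
  exact Function.LeftInverse.injective (hχφ t)

/-- the cofactor vector of the deformation -/
noncomputable def cf (φ : ℝ → E3 → E3) (p : ℝ × (E3 × E3)) : E3 :=
  P.cofv (fderiv ℝ (φ p.1) p.2.1) p.2.2

/-- the area factor -/
noncomputable def gf (φ : ℝ → E3 → E3) (p : ℝ × (E3 × E3)) : ℝ := ‖cf φ p‖

/-- the domain of smoothness -/
def Of (φ : ℝ → E3 → E3) : Set (ℝ × (E3 × E3)) := {p | cf φ p ≠ 0}

theorem contDiff_cf1 : ContDiff ℝ ∞ fun p : (E3 →L[ℝ] E3) × E3 => P.cofv p.1 p.2 :=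
  P.contDiff_cofv.of_le le_top

theorem contDiff_cf2 (hφ : ContDiff ℝ ∞ fun p : ℝ × E3 => φ p.1 p.2) :
    ContDiff ℝ ∞ fun p : ℝ × (E3 × E3) => (fderiv ℝ (φ p.1) p.2.1, p.2.2) :=
  ((contDiff_T hφ).comp (contDiff_fst.prodMk (contDiff_fst.comp contDiff_snd))).prodMk
    (contDiff_snd.comp contDiff_snd)

theorem contDiff_cf (hφ : ContDiff ℝ ∞ fun p : ℝ × E3 => φ p.1 p.2) : ContDiff ℝ ∞ (cf φ) := by
  have h := contDiff_cf1.comp (contDiff_cf2 hφ)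
  unfold cf
  exact h

theorem isOpen_Of (hφ : ContDiff ℝ ∞ fun p : ℝ × E3 => φ p.1 p.2) : IsOpen (Of φ) :=
  isOpen_ne_fun (contDiff_cf hφ).continuous continuous_const

theorem contDiffOn_gf (hφ : ContDiff ℝ ∞ fun p : ℝ × E3 => φ p.1 p.2) :
    ContDiffOn ℝ ∞ (gf φ) (Of φ) := (contDiff_cf hφ).contDiffOn.norm ℝ fun _ hp => hp

theorem mem_Of (hφ : IsDeformation φ) (t : ℝ) (x n : E3) (hn : ‖n‖ = 1) : (t, (x, n)) ∈ Of φ :=
  P.cofv_ne_zero (T_inj hφ t x) (by rintro rfl; simp at hn)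

theorem first_gf (hφ : IsDeformation φ) (t : ℝ) (x n : E3) (hn : ‖n‖ = 1) :
    fderiv ℝ (gf φ) (t, (x, n)) (1, 0) =
      inner ℝ (P.cofv (fderiv ℝ (φ t) x) n) (P.dcofv (fderiv ℝ (φ t) x)
        (deriv (fun s => fderiv ℝ (φ s) x) t) n) / ‖P.cofv (fderiv ℝ (φ t) x) n‖ := by
  have h1 := hasDerivAt_slice (isOpen_Of hφ.smooth) (contDiffOn_gf hφ.smooth)
    (mem_Of hφ t x n hn)
  have hTt : ContDiff ℝ ∞ fun t : ℝ => fderiv ℝ (φ t) x :=
    (contDiff_T hφ.smooth).comp (contDiff_id.prodMk contDiff_const)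
  have hT : HasDerivAt (fun t => fderiv ℝ (φ t) x)
      (deriv (fun s => fderiv ℝ (φ s) x) t) t := (hTt.differentiable (by simp) t).hasDerivAt
  have h2 := P.hasDerivAt_norm_cofv hT (n := n) (mem_Of hφ t x n hn)
  exact h1.unique h2

theorem second_gf (hφ : IsDeformation φ) {x n : E3} (hn : ‖n‖ = 1) {M W : E3 →L[ℝ] E3}
    (hM : HasDerivAt (fun t => fderiv ℝ (φ t) x) M 0)
    (hW : HasDerivAt (fun t => deriv (fun s => fderiv ℝ (φ s) x) t) W 0)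
    (htM : LinearMap.trace ℝ E3 M.toLinearMap = 0)
    (htW : LinearMap.trace ℝ E3 W.toLinearMap = LinearMap.trace ℝ E3 (M.comp M).toLinearMap) :
    fderiv ℝ (fun p => fderiv ℝ (gf φ) p (1, 0)) (0, (x, n)) (1, 0) = qform M W n := by
  have h1 := hasDerivAt_slice (isOpen_Of hφ.smooth)
    (contDiffOn_slice (isOpen_Of hφ.smooth) (contDiffOn_gf hφ.smooth)) (mem_Of hφ 0 x n hn)
  have h0 : fderiv ℝ (φ 0) x = 1 := by
    have h0' : φ 0 = fun x => x := funext hφ.zero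
    rw [h0']
    exact fderiv_fun_id
  have h2 := P.second_norm_cofv hM h0 hM.deriv hW htM htW hn
  have h3 : (fun t => fderiv ℝ (gf φ) (t, (x, n)) (1, 0)) = fun t =>
      inner ℝ (P.cofv (fderiv ℝ (φ t) x) n) (P.dcofv (fderiv ℝ (φ t) x)
        (deriv (fun s => fderiv ℝ (φ s) x) t) n) / ‖P.cofv (fderiv ℝ (φ t) x) n‖ :=
    funext fun t => first_gf hφ t x n hn
  rw [h3] at h1
  exact h1.unique h2

variable {ψ : ℝ × ℝ → E3} {U : Set (ℝ × ℝ)}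

theorem fderiv_c (hφ : IsDeformation φ) (hU : IsOpen U) (hψ : ContDiffOn ℝ 1 ψ U) (t : ℝ)
    {u : ℝ × ℝ} (hu : u ∈ U) (v : ℝ × ℝ) :
    fderiv ℝ (φ t ∘ ψ) u v = fderiv ℝ (φ t) (ψ u) (fderiv ℝ ψ u v) := by
  rw [fderiv_comp u ((contDiff_slice hφ.smooth t).differentiable (by simp) _)
    ((hψ.contDiffAt (hU.mem_nhds hu)).differentiableAt (by simp))]
  rfl

theorem contDiffOn_c (hφ : IsDeformation φ) (hψ : ContDiffOn ℝ 1 ψ U) (t : ℝ) :
    ContDiffOn ℝ 1 (φ t ∘ ψ) U :=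
  ((contDiff_slice hφ.smooth t).of_le (by simp)).comp_contDiffOn hψ

theorem jac_c_pos (hφ : IsDeformation φ) (hU : IsOpen U) (hψ : ContDiffOn ℝ 1 ψ U)
    (hj : ∀ u ∈ U, 0 < jac (fderiv ℝ ψ u (1, 0)) (fderiv ℝ ψ u (0, 1))) (t : ℝ) (u : ℝ × ℝ)
    (hu : u ∈ U) : 0 < jac (fderiv ℝ (φ t ∘ ψ) u (1, 0)) (fderiv ℝ (φ t ∘ ψ) u (0, 1)) := by
  rw [fderiv_c hφ hU hψ t hu, fderiv_c hφ hU hψ t hu]
  apply jac_pos
  intro a b hab
  refine indep_of_jac_pos (hj u hu) a b (T_inj hφ t (ψ u) ?_)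
  rw [map_zero, map_add, map_smul (fderiv ℝ (φ t) (ψ u)), map_smul (fderiv ℝ (φ t) (ψ u))]
  exact hab

theorem jac_c_cont (hφ : IsDeformation φ) (hU : IsOpen U) (hψ : ContDiffOn ℝ 1 ψ U) (t : ℝ) :
    ContinuousOn (fun u => jac (fderiv ℝ (φ t ∘ ψ) u (1, 0))
      (fderiv ℝ (φ t ∘ ψ) u (0, 1))) U := by
  have h1 : ContinuousOn (fderiv ℝ (φ t ∘ ψ)) U :=
    (contDiffOn_c hφ hψ t).continuousOn_fderiv_of_isOpen hU le_rfl
  have h2 : ContinuousOn (fun u => fderiv ℝ (φ t ∘ ψ) u (1, 0)) U :=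
    h1.clm_apply continuousOn_const
  have h3 : ContinuousOn (fun u => fderiv ℝ (φ t ∘ ψ) u (0, 1)) U :=
    h1.clm_apply continuousOn_const
  unfold jac
  exact ((((h2.norm.pow 2).mul (h3.norm.pow 2)).sub ((h2.inner h3).pow 2))).sqrt

theorem jac_c (hφ : IsDeformation φ) (hU : IsOpen U) (hψ : ContDiffOn ℝ 1 ψ U) (t : ℝ)
    {u : ℝ × ℝ} (hu : u ∈ U) {n : E3} (hn : ‖n‖ = 1 ∧ inner ℝ n (fderiv ℝ ψ u (1, 0)) = 0 ∧
      inner ℝ n (fderiv ℝ ψ u (0, 1)) = 0) :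
    jac (fderiv ℝ (φ t ∘ ψ) u (1, 0)) (fderiv ℝ (φ t ∘ ψ) u (0, 1)) =
      jac (fderiv ℝ ψ u (1, 0)) (fderiv ℝ ψ u (0, 1)) * gf φ (t, (ψ u, n)) := by
  rw [fderiv_c hφ hU hψ t hu, fderiv_c hφ hU hψ t hu]
  exact P.cofv_jac _ hn.1 hn.2.1 hn.2.2

theorem area_c (hφ : IsDeformation φ) (hU : IsOpen U) (hψ : ContDiffOn ℝ 1 ψ U)
    (hj : ∀ u ∈ U, 0 < jac (fderiv ℝ ψ u (1, 0)) (fderiv ℝ ψ u (0, 1)))
    {s : Set (ℝ × ℝ)} (hs : MeasurableSet s) (hsU : s ⊆ U) (hinj : InjOn ψ s) (t : ℝ) :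
    (μH[2] (φ t '' (ψ '' s))).toReal = cH * ∫ u in s, jac (fderiv ℝ (φ t ∘ ψ) u (1, 0))
      (fderiv ℝ (φ t ∘ ψ) u (0, 1)) := by
  rw [← Set.image_comp, P.area_formula hU (contDiffOn_c hφ hψ t) (jac_c_pos hφ hU hψ hj t) hs hsU
    ((φ_inj hφ t).injOn.comp hinj (Set.mapsTo_univ _ _)), ← integral_const_mul,
    integral_eq_lintegral_of_nonneg_ae]
  · exact (ae_restrict_mem hs).mono fun u hu =>
      mul_nonneg P.cH_pos.le (jac_c_pos hφ hU hψ hj t u (hsU hu)).le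
  · exact (((jac_c_cont hφ hU hψ t).mono hsU).aestronglyMeasurable hs).const_mul _

end

end Kusner.F2b

namespace Kusner

open F2b

theorem P.area_second {φ : ℝ → E3 → E3} (hφ : IsDeformation φ) {M W : E3 → E3 →L[ℝ] E3}
    (hM : ∀ x, HasDerivAt (fun t => fderiv ℝ (φ t) x) (M x) 0)
    (hW : ∀ x, HasDerivAt (fun t => deriv (fun s => fderiv ℝ (φ s) x) t) (W x) 0)
    (htM : ∀ x, LinearMap.trace ℝ E3 (M x).toLinearMap = 0)
    (htW : ∀ x, LinearMap.trace ℝ E3 (W x).toLinearMap =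
      LinearMap.trace ℝ E3 ((M x).comp (M x)).toLinearMap)
    {ψ : ℝ × ℝ → E3} {U s : Set (ℝ × ℝ)} (hU : IsOpen U) (hψ : ContDiffOn ℝ 1 ψ U)
    (hj : ∀ u ∈ U, 0 < jac (fderiv ℝ ψ u (1, 0)) (fderiv ℝ ψ u (0, 1)))
    (hs : MeasurableSet s) (hsU : s ⊆ U) (hinj : InjOn ψ s)
    (hb : Bornology.IsBounded (ψ '' s))
    (hi : IntegrableOn (fun u => jac (fderiv ℝ ψ u (1, 0)) (fderiv ℝ ψ u (0, 1))) s)
    {n : ℝ × ℝ → E3} (hn : ∀ u ∈ s, ‖n u‖ = 1 ∧ inner ℝ (n u) (fderiv ℝ ψ u (1, 0)) = 0 ∧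
      inner ℝ (n u) (fderiv ℝ ψ u (0, 1)) = 0) :
    Second (fun t => (μH[2] (φ t '' (ψ '' s))).toReal)
      (cH * ∫ u in s, jac (fderiv ℝ ψ u (1, 0)) (fderiv ℝ ψ u (0, 1)) *
        qform (M (ψ u)) (W (ψ u)) (n u)) := by
  have hO := isOpen_Of hφ.smooth
  have hg := contDiffOn_gf hφ.smooth
  have hK : IsCompact (closure (ψ '' s) ×ˢ sphere (0 : E3) 1) :=
    hb.isCompact_closure.prod (isCompact_sphere 0 1)
  have hKO : ∀ t, ∀ y ∈ closure (ψ '' s) ×ˢ sphere (0 : E3) 1, (t, y) ∈ Of φ := fun t y hy =>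
    mem_Of hφ t y.1 y.2 (mem_sphere_zero_iff_norm.1 hy.2)
  have hyK : ∀ u ∈ s, (ψ u, n u) ∈ closure (ψ '' s) ×ˢ sphere (0 : E3) 1 := fun u hu =>
    ⟨subset_closure ⟨u, hu, rfl⟩, mem_sphere_zero_iff_norm.2 (hn u hu).1⟩
  have hy : ∀ᵐ u ∂(volume.restrict s), (ψ u, n u) ∈ closure (ψ '' s) ×ˢ sphere (0 : E3) 1 :=
    (ae_restrict_mem hs).mono hyK
  have hJ : ∀ t, ∀ u ∈ s, jac (fderiv ℝ (φ t ∘ ψ) u (1, 0)) (fderiv ℝ (φ t ∘ ψ) u (0, 1)) =
      jac (fderiv ℝ ψ u (1, 0)) (fderiv ℝ ψ u (0, 1)) * gf φ (t, (ψ u, n u)) :=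
    fun t u hu => jac_c hφ hU hψ t (hsU hu) (hn u hu)
  have hm : ∀ t, AEStronglyMeasurable (fun u => jac (fderiv ℝ ψ u (1, 0)) (fderiv ℝ ψ u (0, 1)) *
      gf φ (t, (ψ u, n u))) (volume.restrict s) := by
    intro t
    exact AEStronglyMeasurable.congr
      (((jac_c_cont hφ hU hψ t).mono hsU).aestronglyMeasurable hs)
      ((ae_restrict_mem hs).mono fun u hu => hJ t u hu)
  obtain ⟨hm1, hd1⟩ := param_deriv hO hg hK hKO hi hy hm
  obtain ⟨hm2, hd2⟩ := param_deriv hO (contDiffOn_slice hO hg) hK hKO hi hy hm1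
  have harea : (fun t => (μH[2] (φ t '' (ψ '' s))).toReal) = fun t =>
      cH * ∫ u in s, jac (fderiv ℝ ψ u (1, 0)) (fderiv ℝ ψ u (0, 1)) *
        gf φ (t, (ψ u, n u)) := by
    funext t
    rw [area_c hφ hU hψ hj hs hsU hinj t, setIntegral_congr_fun hs (hJ t)]
  rw [harea]
  refine ⟨_, fun t => (hd1 t).const_mul cH, ?_⟩
  have h3 := (hd2 0).const_mul cH
  have h4 : ∫ u in s, jac (fderiv ℝ ψ u (1, 0)) (fderiv ℝ ψ u (0, 1)) *
        fderiv ℝ (fun p => fderiv ℝ (gf φ) p (1, 0)) (0, (ψ u, n u)) (1, 0) =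
      ∫ u in s, jac (fderiv ℝ ψ u (1, 0)) (fderiv ℝ ψ u (0, 1)) *
        qform (M (ψ u)) (W (ψ u)) (n u) := by
    refine setIntegral_congr_fun hs fun u hu => ?_
    exact congrArg (fun z => jac (fderiv ℝ ψ u (1, 0)) (fderiv ℝ ψ u (0, 1)) * z)
      (second_gf hφ (hn u hu).1 (hM _) (hW _) (htM _) (htW _))
  rw [h4] at h3
  exact h3

end Kusner
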